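import Mathlib
import Pool.Agent.Helper69_Weyl.Basic

/-!
# Vinogradov's mean value theorem in a finite `p`-adic form: definitions

`Av q l Φ` is the mean of `Φ` over `{0, …, q - 1} ^ l`; all functions are periodic modulo `q`.
`G q E s w ζ = ∑ x ∈ s, w x e((∑ j, ζ j E j x) / q)`.
`Dec p k n C` is the decoupling inequality for the moment curve of degree `k` from `ℤ` to the
residue classes modulo `p ^ n`, `Bil` the bilinear inequality.
-/

set_option autoImplicit false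

namespace Pool.Agent.VM

open Pool.Agent.Helper69_Weyl (ee)

/-- `k (k + 1) / 2` -/
def tri (k : ℕ) : ℕ := k * (k + 1) / 2

/-- `Φ` is periodic modulo `q` in every variable -/
def Per (q l : ℕ) (Φ : (Fin l → ℤ) → ℝ) : Prop :=
  ∀ ζ v : Fin l → ℤ, Φ (fun j => ζ j + (q : ℤ) * v j) = Φ ζ

/-- the mean of `Φ` over the box `{0, …, q - 1} ^ l` -/
noncomputable def Av (q l : ℕ) (Φ : (Fin l → ℤ) → ℝ) : ℝ :=
  (∑ ζ : Fin l → Fin q, Φ (fun j => (((ζ j : ℕ) : ℤ)))) / (q : ℝ) ^ l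

/-- the exponential sum with the frequencies `E j x / q` and the weights `w x`, `x ∈ s` -/
noncomputable def G (q : ℕ) {l : ℕ} (E : Fin l → ℤ → ℤ) (s : Finset ℤ) (w : ℤ → ℂ)
    (ζ : Fin l → ℤ) : ℂ :=
  ∑ x ∈ s, w x * ee (((∑ j, ζ j * E j x : ℤ) : ℝ) / (q : ℝ))

/-- the powers `x ^ (r + 1), …, x ^ (r + l)` -/
def mc (r l : ℕ) : Fin l → ℤ → ℤ := fun j x => x ^ (r + (j : ℕ) + 1)

/-- the elements of `s` which are congruent to `c` modulo `m` -/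
def cl (m : ℕ) (c : ℤ) (s : Finset ℤ) : Finset ℤ := s.filter (fun x => x ≡ c [ZMOD (m : ℤ)])

/-- all elements of `s` are congruent to `c` modulo `m` -/
def InCl (m : ℕ) (c : ℤ) (s : Finset ℤ) : Prop := ∀ x ∈ s, x ≡ c [ZMOD (m : ℤ)]

/-- the mean of `|G| ^ (2 r)` -/
noncomputable def mom (q : ℕ) {l : ℕ} (E : Fin l → ℤ → ℤ) (r : ℕ) (s : Finset ℤ) (w : ℤ → ℂ) : ℝ :=
  Av q l (fun ζ => ‖G q E s w ζ‖ ^ (2 * r))

/-- the sum of `‖G_J‖ ^ 2` in `L ^ (2 r)` over the residue classes `J` modulo `m` -/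
noncomputable def Sq (q : ℕ) {l : ℕ} (E : Fin l → ℤ → ℤ) (r m : ℕ) (s : Finset ℤ) (w : ℤ → ℂ) : ℝ :=
  ∑ c ∈ Finset.range m, (mom q E r (cl m (c : ℤ) s) w) ^ (1 / (r : ℝ))

/-- the decoupling inequality for the moment curve of degree `k`, with the constant `C` for the
power `2 tri k = k (k + 1)` -/
def Dec (p k n : ℕ) (C : ℝ) : Prop :=
  ∀ (s : Finset ℤ) (w : ℤ → ℂ),
    mom (p ^ (k * n)) (mc 0 k) (tri k) s w ≤
      C * (Sq (p ^ (k * n)) (mc 0 k) (tri k) (p ^ n) s w) ^ (tri k)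

/-- decoupling for the moment curve of degree `k` with an arbitrarily small loss -/
def DecE (p k : ℕ) : Prop :=
  ∀ ε : ℝ, 0 < ε → ∃ C : ℝ, 0 < C ∧ ∀ n : ℕ, Dec p k n (C * (p : ℝ) ^ (ε * (n : ℝ)))

/-- the bilinear inequality for two classes modulo `p ^ a` and `p ^ b` which are different
modulo `p`, with the exponents `2 tri l` and `2 tri k - 2 tri l` -/
def Bil (p k l n a b : ℕ) (C : ℝ) : Prop :=
  ∀ c c' : ℤ, ¬ c ≡ c' [ZMOD (p : ℤ)] → ∀ (s s' : Finset ℤ) (w w' : ℤ → ℂ),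
    InCl (p ^ a) c s → InCl (p ^ b) c' s' →
    Av (p ^ (k * n)) k (fun ζ => ‖G (p ^ (k * n)) (mc 0 k) s w ζ‖ ^ (2 * tri l) *
        ‖G (p ^ (k * n)) (mc 0 k) s' w' ζ‖ ^ (2 * (tri k - tri l))) ≤
      C * (Sq (p ^ (k * n)) (mc 0 k) (tri k) (p ^ n) s w) ^ (tri l) *
        (Sq (p ^ (k * n)) (mc 0 k) (tri k) (p ^ n) s' w') ^ (tri k - tri l)

/-- `s - c` -/
def tr (c : ℤ) (s : Finset ℤ) : Finset ℤ := s.image (fun x => x - c)

/-- the weights after the translation -/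
def tw (c : ℤ) (w : ℤ → ℂ) : ℤ → ℂ := fun x => w (x + c)

/-- the solutions of the Vinogradov system of degree `k` in `2 s` variables in `[1, N]` -/
noncomputable def Jset (s k N : ℕ) : Finset ((Fin s → ℤ) × (Fin s → ℤ)) :=
  ((Fintype.piFinset fun _ => Finset.Icc (1 : ℤ) (N : ℤ)) ×ˢ
    (Fintype.piFinset fun _ => Finset.Icc (1 : ℤ) (N : ℤ))).filter
    (fun v => ∀ j : Fin k, ∑ i, v.1 i ^ ((j : ℕ) + 1) = ∑ i, v.2 i ^ ((j : ℕ) + 1))

/-- the main conjecture in Vinogradov's mean value theorem at the critical exponent -/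
def VmvtStmt (k : ℕ) : Prop :=
  ∀ ε : ℝ, 0 < ε → ∃ C : ℝ, 0 < C ∧ ∀ N : ℕ,
    ((Jset (tri k) k N).card : ℝ) ≤ C * (N : ℝ) ^ ((tri k : ℝ) + ε)

/-- `x` is within `δ` of an integer -/
def Nr (x δ : ℝ) : Prop := ∃ z : ℤ, |x - z| ≤ δ

end Pool.Agent.VM
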