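import Mathlib
import Pool.Agent.VM.Defs

/-!
# Vinogradov's mean value theorem in a finite `p`-adic form: the statements of the modules
-/

set_option autoImplicit false

namespace Pool.Agent.VM

open Pool.Agent.Helper69_Weyl (ee)

/-! ## Averages -/

/-- AVT: the mean of a periodic function is invariant under translations -/
def AvtStmt : Prop :=
  ∀ (q l : ℕ) (Φ : (Fin l → ℤ) → ℝ), 0 < q → Per q l Φ → ∀ v : Fin l → ℤ,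
    Av q l (fun ζ => Φ (fun j => ζ j + v j)) = Av q l Φ

/-- AVB: the mean of a periodic function is invariant under additive maps which are injective
modulo `q` -/
def AvbStmt : Prop :=
  ∀ (q l : ℕ) (Φ : (Fin l → ℤ) → ℝ) (L : (Fin l → ℤ) →+ (Fin l → ℤ)), 0 < q → Per q l Φ →
    (∀ ζ, (∀ i, (q : ℤ) ∣ L ζ i) → ∀ j, (q : ℤ) ∣ ζ j) →
    Av q l (fun ζ => Φ (L ζ)) = Av q l Φ

/-- HO1: Hölder's inequality for powers -/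
def Ho1Stmt : Prop :=
  ∀ (q l : ℕ) (f g : (Fin l → ℤ) → ℝ) (a b : ℕ), 0 < q → 0 < a + b → (∀ ζ, 0 ≤ f ζ) →
    (∀ ζ, 0 ≤ g ζ) →
    Av q l (fun ζ => f ζ ^ a * g ζ ^ b) ≤
      (Av q l (fun ζ => f ζ ^ (a + b))) ^ ((a : ℝ) / ((a : ℝ) + b)) *
        (Av q l (fun ζ => g ζ ^ (a + b))) ^ ((b : ℝ) / ((a : ℝ) + b))

/-- HO2: Hölder's inequality -/
def Ho2Stmt : Prop :=
  ∀ (q l : ℕ) (X Y : (Fin l → ℤ) → ℝ) (θ : ℝ), 0 < q → 0 ≤ θ → θ ≤ 1 → (∀ ζ, 0 ≤ X ζ) →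
    (∀ ζ, 0 ≤ Y ζ) →
    Av q l (fun ζ => X ζ ^ θ * Y ζ ^ (1 - θ)) ≤ (Av q l X) ^ θ * (Av q l Y) ^ (1 - θ)

/-- MNK: Minkowski's inequality -/
def MnkStmt : Prop :=
  ∀ (q l r : ℕ) (T : Finset ℕ) (X : ℕ → (Fin l → ℤ) → ℝ), 0 < q → 1 ≤ r →
    (∀ i ζ, 0 ≤ X i ζ) →
    Av q l (fun ζ => (∑ i ∈ T, X i ζ) ^ r) ≤
      (∑ i ∈ T, (Av q l (fun ζ => X i ζ ^ r)) ^ (1 / (r : ℝ))) ^ r

/-- LGL: from a local to a global inequality, with a weight which is constant along the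
local directions -/
def LglStmt : Prop :=
  ∀ (q q' k l r : ℕ) (C : ℝ) (T : Finset ℕ) (g : (Fin k → ℤ) → ℂ)
    (gj : ℕ → (Fin k → ℤ) → ℂ) (W : (Fin k → ℤ) → ℝ) (φ : (Fin l → ℤ) → (Fin k → ℤ)),
    0 < q → 0 < q' → 1 ≤ r → 0 ≤ C → (∀ α, 0 ≤ W α) →
    Per q k (fun α => ‖g α‖) → (∀ i, Per q k (fun α => ‖gj i α‖)) → Per q k W →
    (∀ (α : Fin k → ℤ) (ζ : Fin l → ℤ), W (fun j => α j + φ ζ j) = W α) →
    (∀ α : Fin k → ℤ, Av q' l (fun ζ => ‖g (fun j => α j + φ ζ j)‖ ^ (2 * r)) ≤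
      C * (∑ i ∈ T, (Av q' l (fun ζ => ‖gj i (fun j => α j + φ ζ j)‖ ^ (2 * r))) ^
        (1 / (r : ℝ))) ^ r) →
    Av q k (fun α => W α * ‖g α‖ ^ (2 * r)) ≤
      C * (∑ i ∈ T, (Av q k (fun α => W α * ‖gj i α‖ ^ (2 * r))) ^ (1 / (r : ℝ))) ^ r

/-! ## Exponential sums -/

/-- GPR: `G` is periodic -/
def GprStmt : Prop :=
  ∀ (q l : ℕ) (E : Fin l → ℤ → ℤ) (s : Finset ℤ) (w : ℤ → ℂ), 0 < q → ∀ ζ v : Fin l → ℤ,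
    G q E s w (fun j => ζ j + (q : ℤ) * v j) = G q E s w ζ

/-- TRA: translation of the variable -/
def TraStmt : Prop :=
  ∀ (q k : ℕ) (c : ℤ) (s s' : Finset ℤ) (w w' : ℤ → ℂ) (i j : ℕ), 0 < q →
    Av q k (fun ζ => ‖G q (mc 0 k) s w ζ‖ ^ i * ‖G q (mc 0 k) s' w' ζ‖ ^ j) =
      Av q k (fun ζ => ‖G q (mc 0 k) (tr c s) (tw c w) ζ‖ ^ i *
        ‖G q (mc 0 k) (tr c s') (tw c w') ζ‖ ^ j)

/-- SQT: the square function is invariant under translations of the variable -/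
def SqtStmt : Prop :=
  ∀ (q k r m : ℕ) (c : ℤ) (s : Finset ℤ) (w : ℤ → ℂ), 0 < q → 0 < m → 1 ≤ r →
    Sq q (mc 0 k) r m (tr c s) (tw c w) = Sq q (mc 0 k) r m s w

/-- SQN: nested residue classes -/
def SqnStmt : Prop :=
  ∀ (q l : ℕ) (E : Fin l → ℤ → ℤ) (r m₁ m₂ : ℕ) (s : Finset ℤ) (w : ℤ → ℂ), 0 < q → 1 ≤ r →
    0 < m₁ → 0 < m₂ → m₁ ∣ m₂ →
    ∑ c ∈ Finset.range m₁, Sq q E r m₂ (cl m₁ (c : ℤ) s) w = Sq q E r m₂ s w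

/-- TRV: the trivial inequality -/
def TrvStmt : Prop :=
  ∀ (q l : ℕ) (E : Fin l → ℤ → ℤ) (r m₁ m : ℕ) (c : ℤ) (s : Finset ℤ) (w : ℤ → ℂ), 0 < q →
    1 ≤ r → 0 < m₁ → 0 < m → InCl m₁ c s →
    mom q E r s w ≤ (m : ℝ) ^ r * (Sq q E r (m₁ * m) s w) ^ r

/-- RES: rescaling -/
def ResStmt (p k : ℕ) : Prop :=
  ∀ (m i : ℕ) (C : ℝ), 0 ≤ C → Dec p k m C → ∀ (c : ℤ) (s : Finset ℤ) (w : ℤ → ℂ),
    InCl (p ^ i) c s →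
    mom (p ^ (k * (m + i))) (mc 0 k) (tri k) s w ≤
      C * (Sq (p ^ (k * (m + i))) (mc 0 k) (tri k) (p ^ (m + i)) s w) ^ (tri k)

/-! ## The curve `(x ^ (k - l + 1), …, x ^ k)` at units -/

/-- BIJ: the divided derivatives of order `1, …, l` at a unit determine the coefficients -/
def BijStmt : Prop :=
  ∀ (p k l M : ℕ) (c : ℤ), p.Prime → k < p → l ≤ k → ¬ (p : ℤ) ∣ c → ∀ ζ : Fin l → ℤ,
    (∀ i : Fin l, ((p : ℤ) ^ M) ∣ ∑ j : Fin l, ζ j *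
      ((Nat.choose (k - l + (j : ℕ) + 1) ((i : ℕ) + 1) : ℕ) : ℤ) *
        c ^ (k - l + (j : ℕ) + 1 - ((i : ℕ) + 1))) →
    ∀ j, ((p : ℤ) ^ M) ∣ ζ j

/-- LD1: one step on the curve of high powers at units -/
def Ld1Stmt (p k l : ℕ) : Prop :=
  ∀ (m a₀ M : ℕ) (c : ℤ) (C : ℝ), 0 ≤ C → Dec p l m C → ¬ (p : ℤ) ∣ c →
    M ≤ (l + 1) * a₀ → l * (a₀ + m) ≤ M → ∀ (s : Finset ℤ) (w : ℤ → ℂ), InCl (p ^ a₀) c s →
    mom (p ^ M) (mc (k - l) l) (tri l) s w ≤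
      C * (Sq (p ^ M) (mc (k - l) l) (tri l) (p ^ (a₀ + m)) s w) ^ (tri l)

/-- LDM: the modulus may be increased -/
def LdmStmt : Prop :=
  ∀ (p l r M M' m : ℕ) (E : Fin l → ℤ → ℤ) (C : ℝ) (s : Finset ℤ), 0 < p → 1 ≤ r → 0 ≤ C →
    M ≤ M' → 0 < m →
    (∀ w : ℤ → ℂ, mom (p ^ M) E r s w ≤ C * (Sq (p ^ M) E r m s w) ^ r) →
    ∀ w : ℤ → ℂ, mom (p ^ M') E r s w ≤ C * (Sq (p ^ M') E r m s w) ^ r

/-- LDC: decoupling for the curve of high powers at units -/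
def LdcStmt (p k l : ℕ) : Prop :=
  ∀ ε : ℝ, 0 < ε → ∃ C : ℝ, 0 < C ∧ ∀ (M a a' : ℕ) (c : ℤ), 1 ≤ a → a ≤ a' → l * a' ≤ M →
    ¬ (p : ℤ) ∣ c → ∀ (s : Finset ℤ) (w : ℤ → ℂ), InCl (p ^ a) c s →
    mom (p ^ M) (mc (k - l) l) (tri l) s w ≤
      C * (p : ℝ) ^ (ε * (a' : ℝ)) *
        (Sq (p ^ M) (mc (k - l) l) (tri l) (p ^ a') s w) ^ (tri l)

/-! ## The bilinear inequalities -/

/-- LMA: lower degree decoupling in the bilinear inequality -/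
def LmaStmt (p k l : ℕ) : Prop :=
  ∀ ε : ℝ, 0 < ε → ∃ C : ℝ, 0 < C ∧ ∀ (n a a' b : ℕ) (B : ℝ), 0 ≤ B → 1 ≤ a → a ≤ a' →
    a' ≤ n → 1 ≤ b → b ≤ n → l * a' ≤ (k - l + 1) * b → Bil p k l n a' b B →
    Bil p k l n a b (C * (p : ℝ) ^ (ε * (a' : ℝ)) * B)

/-- LMB: Hölder's inequality in the bilinear inequality -/
def LmbStmt (p k l : ℕ) : Prop :=
  ∀ (n a b : ℕ) (B₁ B₂ : ℝ), 0 ≤ B₁ → 0 ≤ B₂ → Bil p k (l - 1) n a b B₁ →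
    Bil p k (k - l) n b a B₂ →
    Bil p k l n a b (B₁ ^ (((k : ℝ) - l) / ((k : ℝ) - l + 1)) * B₂ ^ (1 / ((k : ℝ) - l + 1)))

/-- LM0: the bilinear inequality from the linear one -/
def Lm0Stmt (p k : ℕ) : Prop :=
  ∀ (l n a b : ℕ) (C₁ C₂ : ℝ), l < k → a ≤ n → b ≤ n → 0 ≤ C₁ → 0 ≤ C₂ →
    Dec p k (n - a) C₁ → Dec p k (n - b) C₂ →
    Bil p k l n a b (C₁ ^ ((tri l : ℝ) / (tri k : ℝ)) * C₂ ^ (1 - (tri l : ℝ) / (tri k : ℝ)))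

/-- LMC: from bilinear to linear -/
def LmcStmt (p k : ℕ) : Prop :=
  ∀ κ : ℝ, 0 < κ → κ < 1 → ∃ C : ℝ, 0 < C ∧ ∀ (n : ℕ) (D B : ℝ), 0 ≤ D → 0 ≤ B → 1 ≤ n →
    Dec p k (n - 1) D → Bil p k 1 n 1 1 B →
    Dec p k n (((1 - κ) ^ (2 * tri k))⁻¹ * D + C * B)

/-- LMD: the trivial subdivision of the two classes -/
def LmdStmt (p k : ℕ) : Prop :=
  ∀ (n a b : ℕ) (B : ℝ), 0 ≤ B → 1 ≤ a → a ≤ n → 1 ≤ b → b ≤ n → Bil p k 1 n a b B →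
    Bil p k 1 n 1 1 ((p : ℝ) ^ (2 * tri k * (a + b)) * B)

/-- GRW: the linear recursion -/
def GrwStmt : Prop :=
  ∀ (k : ℕ) (η Λ : ℝ) (A : ℕ → ℕ → ℝ), 2 ≤ k → 0 < η → (∀ l, A 0 l = if l = 0 then η else 0) →
    (∀ R, A (R + 1) 0 = η) →
    (∀ R l, 1 ≤ l → l < k → A (R + 1) l =
      ((k : ℝ) - l) / ((k : ℝ) - l + 1) * A R (l - 1) + 1 / (l : ℝ) * A R (k - l)) →
    (∀ R l, 0 ≤ A R l) → ∃ R, Λ ≤ A R 1

/-- FIN: the conclusion -/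
def FinStmt (p k : ℕ) : Prop :=
  (∀ l, 1 ≤ l → l < k → LmaStmt p k l) → (∀ l, 1 ≤ l → l < k → LmbStmt p k l) → Lm0Stmt p k →
    LmcStmt p k → LmdStmt p k → DecE p k

/-- BAS: the base case -/
def BasStmt : Prop := ∀ p : ℕ, p.Prime → DecE p 1

/-- the number of solutions of the system of congruences, and the grid identity -/
noncomputable def Jmod (s k N : ℕ) (M : Fin k → ℕ) : Finset ((Fin s → ℤ) × (Fin s → ℤ)) :=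
  ((Fintype.piFinset fun _ => Finset.Icc (1 : ℤ) (N : ℤ)) ×ˢ
    (Fintype.piFinset fun _ => Finset.Icc (1 : ℤ) (N : ℤ))).filter
    (fun v => ∀ j : Fin k, ((M j : ℕ) : ℤ) ∣
      (∑ i, v.1 i ^ ((j : ℕ) + 1) - ∑ i, v.2 i ^ ((j : ℕ) + 1)))

/-- GRD: the grid identity -/
def GrdStmt : Prop :=
  ∀ (s k N : ℕ) (M : Fin k → ℕ), (∀ j, 0 < M j) →
    ∑ b ∈ Fintype.piFinset (fun j => Finset.range (M j)),
      ‖∑ x ∈ Finset.Icc (1 : ℤ) (N : ℤ),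
        ee (∑ j : Fin k, (b j : ℝ) * (x : ℝ) ^ ((j : ℕ) + 1) / (M j : ℝ))‖ ^ (2 * s) =
      (∏ j, (M j : ℝ)) * ((Jmod s k N M).card : ℝ)

/-- VMV: the mean value theorem from decoupling -/
def VmvStmt : Prop := ∀ p k : ℕ, p.Prime → 1 ≤ k → DecE p k → VmvtStmt k

end Pool.Agent.VM
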