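import Mathlib
import Pool.Agent.VM.Stmts

/-!
# Weyl sums with the exponent `3 / (2 k (k + 1))`: the statements of the modules

Part L: the large sieve inequality from the mean value theorem.  Part E: the number of pairs of
coefficient vectors in the same box.  Part A: assembly.
-/

set_option autoImplicit false

namespace Pool.Agent.VM

open Pool.Agent.Helper69_Weyl (ee)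

/-! ## Part L -/

/-- ABL: partial summation -/
def AblStmt : Prop :=
  ∀ (k K lo hi : ℕ) (c : ℕ → ℂ) (τ : Fin k → ℝ), 1 ≤ K → 1 ≤ lo → lo ≤ hi → hi ≤ K →
    (∀ j, |τ j| ≤ 1 / (K : ℝ) ^ ((j : ℕ) + 1)) →
    ∃ h, lo ≤ h ∧ h ≤ hi ∧
      ‖∑ m ∈ Finset.Icc lo hi, c m * ee (∑ j, τ j * (m : ℝ) ^ ((j : ℕ) + 1))‖ ≤
        (1 + 7 * (k : ℝ)) * ‖∑ m ∈ Finset.Icc lo h, c m‖

/-- CMP: completion of intervals -/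
def CmpStmt : Prop :=
  ∃ ω : ℕ → ℕ → ℝ, (∀ K l, 0 ≤ ω K l) ∧
    (∀ ε : ℝ, 0 < ε → ∃ C : ℝ, 0 < C ∧ ∀ K : ℕ, 1 ≤ K →
      ∑ l ∈ Finset.range K, ω K l ≤ C * (K : ℝ) ^ ε) ∧
    ∀ (K lo h : ℕ) (c : ℕ → ℂ), 1 ≤ K → 1 ≤ lo → h ≤ K →
      ‖∑ m ∈ Finset.Icc lo h, c m‖ ≤ ∑ l ∈ Finset.range K, ω K l *
        ‖∑ m ∈ Finset.Icc 1 K, c m * ee ((l : ℝ) * (m : ℝ) / (K : ℝ))‖

/-- HMU: Hölder's inequality with multiplicities -/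
def HmuStmt : Prop :=
  ∀ (ι β : Type) [DecidableEq ι] [DecidableEq β] (P : Finset ι) (B : Finset β) (b : ι → β)
    (F : β → ℝ) (s : ℕ), 1 ≤ s → (∀ x, 0 ≤ F x) → (∀ p ∈ P, b p ∈ B) →
    (∑ p ∈ P, F (b p)) ^ (2 * s) ≤ (P.card : ℝ) ^ (2 * s - 2) *
      (((P ×ˢ P).filter (fun v => b v.1 = b v.2)).card : ℝ) * ∑ x ∈ B, F x ^ (2 * s)

/-- JEQ: congruences with large moduli are equations -/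
def JeqStmt : Prop :=
  ∀ (s k N : ℕ) (M : Fin k → ℕ), (∀ j : Fin k, 2 * s * N ^ ((j : ℕ) + 1) < M j) →
    (Jmod s k N M).card = (Jset s k N).card

/-- LSA: the large sieve inequality -/
def LsaStmt (k : ℕ) : Prop :=
  ∀ ε : ℝ, 0 < ε → ∃ C : ℝ, 0 < C ∧ ∀ (K : ℕ), 1 ≤ K → ∀ (P : Finset (ℕ × ℤ))
    (θ : ℕ × ℤ → Fin k → ℝ) (lo hi : ℕ × ℤ → ℕ), (∀ p ∈ P, 1 ≤ lo p) → (∀ p ∈ P, hi p ≤ K) →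
    (∑ p ∈ P, ‖∑ m ∈ Finset.Icc (lo p) (hi p),
      ee (∑ j, θ p j * (m : ℝ) ^ ((j : ℕ) + 1))‖) ^ (2 * tri k) ≤
      C * (K : ℝ) ^ (2 * (tri k : ℝ) + ε) * (P.card : ℝ) ^ (2 * tri k - 2) *
        (Nat.card {v : (ℕ × ℤ) × (ℕ × ℤ) // v.1 ∈ P ∧ v.2 ∈ P ∧
          ∀ j : Fin k, Nr (θ v.1 j - θ v.2 j) (1 / (K : ℝ) ^ ((j : ℕ) + 1))} : ℝ)

/-! ## Part E -/

/-- PRM: primes in `(D, 2 D]` -/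
def PrmStmt : Prop :=
  ∀ ε : ℝ, 0 < ε → ∃ D₀ : ℕ, ∀ D : ℕ, D₀ ≤ D →
    (D : ℝ) ^ (1 - ε) ≤ (((Finset.Ioc D (2 * D)).filter Nat.Prime).card : ℝ)

/-- RTU: the number of `k`-th roots of unity modulo `u` -/
def RtuStmt : Prop :=
  ∀ k : ℕ, 1 ≤ k → ∀ ε : ℝ, 0 < ε → ∃ C : ℝ, 0 < C ∧ ∀ u : ℕ, 1 ≤ u →
    (((Finset.range u).filter (fun x => Nat.Coprime x u ∧ x ^ k ≡ 1 [MOD u])).card : ℝ) ≤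
      C * (u : ℝ) ^ ε

/-- DIR: Dirichlet's theorem -/
def DirStmt : Prop :=
  ∀ (t : ℝ) (a : ℤ) (q Q : ℕ), 1 ≤ q → Int.gcd a q = 1 → |t - (a : ℝ) / (q : ℝ)| ≤ 1 / (q : ℝ) ^ 2 →
    2 * q ≤ Q → ∃ (b : ℤ) (u : ℕ), 1 ≤ u ∧ u ≤ Q ∧ q ≤ 2 * u ∧ Int.gcd b u = 1 ∧
      |t - (b : ℝ) / (u : ℝ)| ≤ 1 / ((u : ℝ) * (Q : ℝ))

/-- DVD: closeness forces divisibility -/
def DvdStmt : Prop :=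
  ∀ (t δ : ℝ) (b : ℤ) (u Q : ℕ) (m : ℤ), 1 ≤ u → u ≤ Q → Int.gcd b u = 1 →
    |t - (b : ℝ) / (u : ℝ)| ≤ 1 / ((u : ℝ) * (Q : ℝ)) → 2 * |m| ≤ (Q : ℤ) →
    δ < 1 / (2 * (Q : ℝ)) → Nr (t * (m : ℝ)) δ → (u : ℤ) ∣ m

/-- OFF: congruent `k`-th powers of primes -/
def OffStmt : Prop :=
  ∀ (k D u : ℕ), 1 ≤ k → (2 * D) ^ 2 < u →
    ((((Finset.Ioc D (2 * D)) ×ˢ (Finset.Ioc D (2 * D))).filter (fun v => v.1.Prime ∧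
      v.2.Prime ∧ v.1 ≠ v.2 ∧ ¬ v.1 ∣ u ∧ ¬ v.2 ∣ u ∧ v.1 ^ k ≡ v.2 ^ k [MOD u])).card) ≤
      ((Finset.range u).filter (fun x => Nat.Coprime x u ∧ x ^ k ≡ 1 [MOD u])).card

/-- PDV: the number of large prime divisors -/
def PdvStmt : Prop :=
  ∀ (D r : ℕ) (m : ℕ), 2 ≤ D → 1 ≤ m → m < D ^ r →
    ((Finset.Ioc D (2 * D)).filter (fun d => d.Prime ∧ d ∣ m)).card < r

/-- CNT: integers with small fractional part which are not divisible by `u` -/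
def CntStmt : Prop :=
  ∀ (t δ : ℝ) (b : ℤ) (u Q X : ℕ), 1 ≤ u → u ≤ Q → Int.gcd b u = 1 →
    |t - (b : ℝ) / (u : ℝ)| ≤ 1 / ((u : ℝ) * (Q : ℝ)) → 0 ≤ δ → δ * (u : ℝ) ≤ 1 / 2 →
    (Nat.card {m : ℤ // |m| ≤ (X : ℤ) ∧ ¬ (u : ℤ) ∣ m ∧ Nr (t * (m : ℝ)) δ} : ℝ) ≤
      4 * (X : ℝ) / (Q : ℝ) + 8 * δ * (X : ℝ)

/-- BLK: at most one solution in every block of length `d` -/
def BlkStmt : Prop :=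
  ∀ (d : ℕ) (g x : ℤ) (φ c₀ η δ : ℝ) (L : ℕ), d.Prime → ¬ (d : ℤ) ∣ g →
    |φ - (g : ℝ) / (d : ℝ)| ≤ η / (d : ℝ) → 2 * δ + η < 1 / (d : ℝ) →
    Nat.card {n : ℤ // x ≤ n ∧ n < x + L ∧ Nr (φ * (n : ℝ) + c₀) δ} ≤ L / d + 1

/-- the properties of the parameters `D = √q / c₀`, `K = q / (4 D)` -/
def NumP (k c₀ : ℕ) : Prop :=
  ∀ B : ℕ, ∃ q₀ : ℕ, ∀ q D K : ℕ, q₀ ≤ q →
    D = Nat.sqrt q / c₀ → K = q / (4 * D) →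
    B ≤ D ∧ 1 ≤ K ∧ 2 * (2 * D) ^ 2 < q ∧ q ≤ 5 * D * K ∧ 4 * D * K ≤ q ∧ 2 * D ≤ K ∧
    q ≤ (2 * D) ^ k ∧ 4 * (2 * D) ^ k < K ^ k ∧ 4 * q + 2 ≤ K ^ (k - 1) ∧
    2 * D * ((k - 1) + 2 * K) < K ^ (k - 1) ∧
    8 * k * q * (2 * D) ^ (k - 2) < D * K ^ (k - 1) ∧
    2 * k * q * (2 * D) ^ (k - 1) < D ^ (k + 2) ∧ K ^ (k - 1) ≤ D ^ (k + 2) ∧
    q ≤ D ^ 3 ∧ q ≤ 5 * c₀ ^ 2 * D ^ 2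

/-- NUM: the choice of the parameters -/
def NumStmt : Prop := ∀ k : ℕ, 3 ≤ k → ∃ c₀ : ℕ, 1 ≤ c₀ ∧ NumP k c₀

/-- EN1: the set of dilations -/
def En1Stmt (k c₀ : ℕ) : Prop :=
  ∀ ε : ℝ, 0 < ε → ∃ q₀ : ℕ, ∀ (q D K : ℕ) (t : ℝ) (a : ℤ), q₀ ≤ q → D = Nat.sqrt q / c₀ →
    K = q / (4 * D) → Int.gcd a q = 1 → |t - (a : ℝ) / (q : ℝ)| ≤ 1 / (q : ℝ) ^ 2 →
    ∀ u₁ u₂ : ℕ, 1 ≤ u₁ → 1 ≤ u₂ → u₁ < D ^ (k + 3) → u₂ < D ^ (k + 3) →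
    ∃ S : Finset ℕ, (∀ d ∈ S, D < d ∧ d ≤ 2 * D ∧ d.Prime ∧ ¬ d ∣ u₁ ∧ ¬ d ∣ u₂) ∧
      (q : ℝ) ^ (1 / 2 - ε) ≤ (S.card : ℝ) ∧
      ∀ d ∈ S, ∀ d' ∈ S, d ≠ d' →
        ¬ Nr (t * (((d : ℝ)) ^ k - ((d' : ℝ)) ^ k)) (1 / (K : ℝ) ^ k)

/-- the pairs of points in the same box, for the three highest coordinates -/
def Close (k K : ℕ) (t s₁ s₂ : ℝ) (v : (ℕ × ℤ) × (ℕ × ℤ)) : Prop :=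
  Nr (t * (v.1.1 : ℝ) ^ k - t * (v.2.1 : ℝ) ^ k) (1 / (K : ℝ) ^ k) ∧
  Nr ((v.1.1 : ℝ) ^ (k - 1) * ((k : ℝ) * t * (v.1.2 : ℝ) + s₁) -
    (v.2.1 : ℝ) ^ (k - 1) * ((k : ℝ) * t * (v.2.2 : ℝ) + s₁)) (1 / (K : ℝ) ^ (k - 1)) ∧
  Nr ((v.1.1 : ℝ) ^ (k - 2) * ((Nat.choose k 2 : ℝ) * t * (v.1.2 : ℝ) ^ 2 +
      ((k : ℝ) - 1) * s₁ * (v.1.2 : ℝ) + s₂) -
    (v.2.1 : ℝ) ^ (k - 2) * ((Nat.choose k 2 : ℝ) * t * (v.2.2 : ℝ) ^ 2 +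
      ((k : ℝ) - 1) * s₁ * (v.2.2 : ℝ) + s₂)) (1 / (K : ℝ) ^ (k - 2))

/-- EN2: the pairs `(d, ρ)` -/
def En2Stmt (k c₀ : ℕ) : Prop :=
  ∃ (C : ℝ) (q₀ : ℕ), 0 < C ∧ ∀ (q D K : ℕ) (t : ℝ) (b : ℤ) (u : ℕ), q₀ ≤ q →
    D = Nat.sqrt q / c₀ → K = q / (4 * D) → 1 ≤ u → u ≤ K ^ (k - 1) / 2 → q ≤ 2 * u →
    Int.gcd b u = 1 →
    |t - (b : ℝ) / (u : ℝ)| ≤ 1 / ((u : ℝ) * ((K ^ (k - 1) / 2 : ℕ) : ℝ)) →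
    ∀ S : Finset ℕ, (∀ d ∈ S, D < d ∧ d ≤ 2 * D ∧ d.Prime ∧ ¬ d ∣ u) →
      (Nat.card {v : ℕ × ℤ // v.1 ∈ S ∧ v.2 ≠ 0 ∧ |v.2| ≤ 2 * (q : ℤ) ∧
        Nr ((k : ℝ) * t * (v.1 : ℝ) ^ (k - 1) * (v.2 : ℝ)) (1 / (K : ℝ) ^ (k - 1))} : ℝ) ≤
        C * (q : ℝ)

/-- ENE: the energy -/
def EneStmt (k : ℕ) : Prop :=
  ∃ c₀ : ℕ, 1 ≤ c₀ ∧ ∀ ε : ℝ, 0 < ε → ∃ (C : ℝ) (q₀ : ℕ), 0 < C ∧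
    ∀ (q D K : ℕ) (t : ℝ) (a : ℤ), q₀ ≤ q → D = Nat.sqrt q / c₀ → K = q / (4 * D) →
    Int.gcd a q = 1 → |t - (a : ℝ) / (q : ℝ)| ≤ 1 / (q : ℝ) ^ 2 →
    ∃ S : Finset ℕ, (∀ d ∈ S, D < d ∧ d ≤ 2 * D) ∧ (q : ℝ) ^ (1 / 2 - ε) ≤ (S.card : ℝ) ∧
      ∀ s₁ s₂ : ℝ,
        (Nat.card {v : (ℕ × ℤ) × (ℕ × ℤ) // v.1.1 ∈ S ∧ v.2.1 ∈ S ∧ |v.1.2| ≤ (q : ℤ) ∧
          |v.2.2| ≤ (q : ℤ) ∧ Close k K t s₁ s₂ v} : ℝ) ≤ C * (q : ℝ) ^ (1 + ε) * (S.card : ℝ)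

/-! ## Part A -/

/-- AVG: averaging over the progressions with difference `d` -/
def AvgStmt : Prop :=
  ∀ (q K d X : ℕ) (f : ℤ → ℂ), 1 ≤ K → 1 ≤ d → d * K ≤ q → X ≤ q →
    (K : ℝ) * ‖∑ n ∈ Finset.Icc (1 : ℤ) (X : ℤ), f n‖ ≤
      ∑ n ∈ Finset.Icc (-(q : ℤ)) (q : ℤ),
        ‖∑ m ∈ (Finset.Icc 1 K).filter (fun m : ℕ => 1 ≤ n + (d : ℤ) * m ∧
          n + (d : ℤ) * m ≤ (X : ℤ)), f (n + (d : ℤ) * m)‖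

/-- TAY: the coefficients of `P (n + d m)` -/
def TayStmt : Prop :=
  ∀ (k : ℕ) (P : Polynomial ℝ) (n d : ℝ), 3 ≤ k → P.natDegree ≤ k →
    ∃ θ : ℕ → ℝ, (∀ m : ℝ, P.eval (n + d * m) = ∑ j ∈ Finset.range (k + 1), θ j * m ^ j) ∧
      θ k = P.coeff k * d ^ k ∧
      θ (k - 1) = d ^ (k - 1) * ((k : ℝ) * P.coeff k * n + P.coeff (k - 1)) ∧
      θ (k - 2) = d ^ (k - 2) * ((Nat.choose k 2 : ℝ) * P.coeff k * n ^ 2 +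
        ((k : ℝ) - 1) * P.coeff (k - 1) * n + P.coeff (k - 2))

/-- BLC: sums of length at most `q` -/
def BlcStmt (k : ℕ) : Prop :=
  ∀ ε : ℝ, 0 < ε → ∃ C : ℝ, 0 < C ∧ ∀ (q X : ℕ) (a : ℤ) (P : Polynomial ℝ), 1 ≤ q →
    Int.gcd a q = 1 → P.natDegree ≤ k →
    |P.coeff k - (a : ℝ) / (q : ℝ)| ≤ 1 / (q : ℝ) ^ 2 → X ≤ q →
    ‖∑ n ∈ Finset.Icc (1 : ℤ) (X : ℤ), ee (P.eval (n : ℝ))‖ ≤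
      C * (q : ℝ) ^ (1 - 3 / (2 * (k : ℝ) * ((k : ℝ) + 1)) + ε)

/-- FNL: the final theorem -/
def FnlStmt (k : ℕ) : Prop :=
  ∀ ε : ℝ, 0 < ε → ∃ C : ℝ, 0 < C ∧ ∀ (N q : ℕ) (a : ℤ) (P : Polynomial ℝ), 1 ≤ q → q ≤ N →
    Int.gcd a q = 1 → P.natDegree ≤ k →
    |P.coeff k - (a : ℝ) / (q : ℝ)| ≤ 1 / (q : ℝ) ^ 2 →
    ‖∑ n ∈ Finset.Icc (1 : ℤ) (N : ℤ), ee (P.eval (n : ℝ))‖ ≤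
      C * (N : ℝ) ^ (1 + ε) * (1 / (q : ℝ)) ^ (3 / (2 * (k : ℝ) * ((k : ℝ) + 1)))

end Pool.Agent.VM
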