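import Mathlib
import Pool.Agent.VM.StmtsW
import Pool.Agent.Helper69_Weyl.Moments

/-!
# Weyl sums near rational numbers: the statements of the modules

Complete sums `Sc k u b m = ∑ x mod u, e((b x ^ k + m x) / u)`, the bound of Hua with a linear
term, the Kusmin-Landau inequality, and the bound for `W k N t ξ` when
`u (1 + N ^ k |t - b / u|) ≤ N`.
-/

set_option autoImplicit false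

namespace Pool.Agent.VM

open Pool.Agent.Helper69_Weyl (ee W)

/-- the complete sum -/
noncomputable def Sc (k u : ℕ) (b m : ℤ) : ℂ :=
  ∑ x ∈ Finset.range u, ee (((b * (x : ℤ) ^ k + m * (x : ℤ) : ℤ) : ℝ) / (u : ℝ))

/-- HMT: multiplicativity -/
def HmtStmt : Prop :=
  ∀ (k u₁ u₂ : ℕ) (b m : ℤ), 1 ≤ k → 0 < u₁ → 0 < u₂ → Nat.Coprime u₁ u₂ →
    Sc k (u₁ * u₂) b m =
      Sc k u₁ (b * (u₂ : ℤ) ^ (k - 1)) m * Sc k u₂ (b * (u₁ : ℤ) ^ (k - 1)) m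

/-- NWT: the system of all power sums of degree up to the number of variables -/
def NwtStmt : Prop :=
  ∀ (p k : ℕ), p.Prime → k < p →
    Nat.card {v : (Fin k → ZMod p) × (Fin k → ZMod p) //
      ∀ j : Fin k, ∑ i, v.1 i ^ ((j : ℕ) + 1) = ∑ i, v.2 i ^ ((j : ℕ) + 1)} ≤
      k.factorial * p ^ k

/-- MOR: Mordell's bound -/
def MorStmt (k : ℕ) : Prop :=
  ∀ (p : ℕ) (b m : ℤ), p.Prime → k < p → ¬ (p : ℤ) ∣ b →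
    ‖Sc k p b m‖ ≤ 2 * (k : ℝ) * (p : ℝ) ^ (1 - 1 / (k : ℝ))

/-- RTP: the number of `n`-th roots of a unit modulo `p ^ s` -/
def RtpStmt : Prop :=
  ∀ (p n s : ℕ) (c : ℤ), p.Prime → 1 ≤ n → ¬ (p : ℤ) ∣ c →
    ((Finset.range (p ^ s)).filter (fun y : ℕ => ((p : ℤ) ^ s) ∣ (y : ℤ) ^ n - c)).card ≤ n ^ 3

/-- STP: stationary phase modulo prime powers -/
def StpStmt : Prop :=
  ∀ (k p e r : ℕ) (b m : ℤ), 1 ≤ k → 0 < p → 2 * r ≤ e →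
    Sc k (p ^ e) b m = (p : ℂ) ^ r *
      ∑ y ∈ (Finset.range (p ^ (e - r))).filter
        (fun y : ℕ => ((p : ℤ) ^ r) ∣ (k : ℤ) * b * (y : ℤ) ^ (k - 1) + m),
        ee (((b * (y : ℤ) ^ k + m * (y : ℤ) : ℤ) : ℝ) / ((p ^ e : ℕ) : ℝ))

/-- PPB: prime powers, the critical points are units -/
def PpbStmt (k : ℕ) : Prop :=
  ∀ (p e τ : ℕ) (b m : ℤ), p.Prime → ¬ (p : ℤ) ∣ b → p ^ τ ∣ k → ¬ p ^ (τ + 1) ∣ k →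
    2 * τ + 2 ≤ e → ((p : ℤ) ^ τ) ∣ m → ¬ ((p : ℤ) ^ (τ + 1)) ∣ m →
    ‖Sc k (p ^ e) b m‖ ≤ (k : ℝ) ^ 4 * (p : ℝ) ^ ((e + 1) / 2)

/-- PPC: prime powers, the other cases -/
def PpcStmt (k : ℕ) : Prop :=
  ∀ (p e τ : ℕ) (b m : ℤ), p.Prime → ¬ (p : ℤ) ∣ b → p ^ τ ∣ k → ¬ p ^ (τ + 1) ∣ k →
    2 * τ + 2 ≤ e →
    (¬ ((p : ℤ) ^ τ) ∣ m → Sc k (p ^ e) b m = 0) ∧
    (∀ m' : ℤ, m = (p : ℤ) ^ (k - 1) * m' → k ≤ e →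
      Sc k (p ^ e) b m = (p : ℂ) ^ (k - 1) * Sc k (p ^ (e - k)) b m') ∧
    (((p : ℤ) ^ (τ + 1)) ∣ m → ¬ ((p : ℤ) ^ (k - 1)) ∣ m → k ≤ e → Sc k (p ^ e) b m = 0) ∧
    (((p : ℤ) ^ (τ + 1)) ∣ m → e < k → ‖Sc k (p ^ e) b m‖ ≤ (p : ℝ) ^ (e - 1))

/-- PPW: the bound for prime powers -/
def PpwStmt (k : ℕ) : Prop :=
  ∃ C : ℝ, 1 ≤ C ∧ ∀ (p e : ℕ) (b m : ℤ), p.Prime → ¬ (p : ℤ) ∣ b →
    ‖Sc k (p ^ e) b m‖ ≤ C * ((p ^ e : ℕ) : ℝ) ^ (1 - 1 / (k : ℝ))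

/-- OME: powers of the number of prime factors -/
def OmeStmt : Prop :=
  ∀ A ε : ℝ, 1 ≤ A → 0 < ε → ∃ C : ℝ, 0 < C ∧ ∀ u : ℕ, 1 ≤ u →
    A ^ (u.primeFactors.card) ≤ C * (u : ℝ) ^ ε

/-- HUA: Hua's bound -/
def HuaStmt (k : ℕ) : Prop :=
  ∀ ε : ℝ, 0 < ε → ∃ C : ℝ, 0 < C ∧ ∀ (u : ℕ) (b m : ℤ), 1 ≤ u → Int.gcd b u = 1 →
    ‖Sc k u b m‖ ≤ C * (u : ℝ) ^ (1 - 1 / (k : ℝ) + ε)

/-- KUL: the Kusmin-Landau inequality -/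
def KulStmt : Prop :=
  ∀ (g : ℤ → ℝ) (lo hi z : ℤ) (δ : ℝ), 0 < δ → δ ≤ 1 / 2 →
    ((∀ n, lo ≤ n → n + 1 < hi → g (n + 1) - g n ≤ g (n + 2) - g (n + 1)) ∨
      (∀ n, lo ≤ n → n + 1 < hi → g (n + 2) - g (n + 1) ≤ g (n + 1) - g n)) →
    (∀ n, lo ≤ n → n < hi → (z : ℝ) + δ ≤ g (n + 1) - g n ∧ g (n + 1) - g n ≤ (z : ℝ) + 1 - δ) →
    ‖∑ n ∈ Finset.Icc lo hi, ee (g n)‖ ≤ 3 / δ

/-- VBO: sums with a small leading coefficient -/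
def VboStmt (k : ℕ) : Prop :=
  ∃ C : ℝ, 0 < C ∧ ∀ (N : ℕ) (β η : ℝ), 1 ≤ N → |β| * (N : ℝ) ^ k ≤ N →
    ‖W k N β η‖ ≤ C * (N : ℝ) * (1 + |β| * (N : ℝ) ^ k) ^ (-(1 / (k : ℝ)))

/-- VFA: no stationary point -/
def VfaStmt (k : ℕ) : Prop :=
  ∀ (N : ℕ) (β η δ : ℝ), 1 ≤ N → 0 < δ → δ ≤ 1 / 2 →
    (∀ z : ℤ, δ + 2 ^ k * |β| * (N : ℝ) ^ (k - 1) ≤ |η - (z : ℝ)|) → ‖W k N β η‖ ≤ 3 / δ

/-- CPL: completion modulo `u` -/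
def CplStmt : Prop :=
  ∀ (k N u : ℕ) (b : ℤ) (β ξ : ℝ), 1 ≤ u →
    (u : ℂ) * W k N ((b : ℝ) / (u : ℝ) + β) ξ =
      ∑ m ∈ Finset.range u, Sc k u b (m : ℤ) * W k N β (ξ - (m : ℝ) / (u : ℝ))

/-- SPL: the sum over the frequencies -/
def SplStmt : Prop :=
  ∀ (u : ℕ) (ξ ρ A : ℝ) (F : ℕ → ℝ), 1 ≤ u → 0 ≤ ρ → 0 ≤ A → (∀ m ∈ Finset.range u, F m ≤ A) →
    (∀ m ∈ Finset.range u, ∀ δ : ℝ, 0 < δ → δ ≤ 1 / 2 →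
      (∀ z : ℤ, δ + ρ ≤ |ξ - (m : ℝ) / (u : ℝ) - (z : ℝ)|) → F m ≤ 3 / δ) →
    ∑ m ∈ Finset.range u, F m ≤ (2 * ρ * (u : ℝ) + 5) * A + 12 * (u : ℝ) * (1 + Real.log u)

/-- MAJ: Weyl sums near rational numbers with small denominators -/
def MajStmt (k : ℕ) : Prop :=
  ∀ ε : ℝ, 0 < ε → ∃ C : ℝ, 0 < C ∧ ∀ (N u : ℕ) (b : ℤ) (t ξ : ℝ), 1 ≤ N → 1 ≤ u →
    Int.gcd b u = 1 → (u : ℝ) * (1 + (N : ℝ) ^ k * |t - (b : ℝ) / (u : ℝ)|) ≤ N →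
    ‖W k N t ξ‖ ≤ C * (N : ℝ) ^ (1 + ε) *
      ((u : ℝ) * (1 + (N : ℝ) ^ k * |t - (b : ℝ) / (u : ℝ)|)) ^ (-(1 / (k : ℝ)))

/-- FFL: the full form -/
def FflStmt (k : ℕ) (σ : ℝ) : Prop :=
  ∀ ε : ℝ, 0 < ε → ∃ C : ℝ, 0 < C ∧ ∀ (N q : ℕ) (a : ℤ) (t ξ : ℝ), 1 ≤ q → q ≤ N →
    Int.gcd a q = 1 → |t - (a : ℝ) / (q : ℝ)| ≤ 1 / (q : ℝ) ^ 2 →
    ‖W k N t ξ‖ ≤ C * (N : ℝ) ^ (1 + ε) * ((1 / (q : ℝ)) ^ (1 / (k : ℝ)) + (1 / (N : ℝ)) ^ σ)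

end Pool.Agent.VM
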