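import Mathlib
import Pool.Agent.VM.StmtsH
import Pool.Agent.Helper7_VM.Stmts

/-!
# Weyl sums: the full form of the bound

The bound for `t` far from rational numbers with denominators `≤ N` and the bound near such
rational numbers together give `|W k N t ξ| ≤ C N ^ (1 + ε) (q ^ (-1 / k) + N ^ (-σ))`.
-/

set_option autoImplicit false

namespace Pool.Agent.VM

open Pool.Agent.Helper69_Weyl (ee W)

/-- the bound for `t` far from rational numbers -/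
def WFarStmt (k : ℕ) (σ : ℝ) : Prop :=
  ∀ ε : ℝ, 0 < ε → ∃ C : ℝ, 0 < C ∧ ∀ (N : ℕ) (t ξ : ℝ), 1 ≤ N → Far k N t →
    ‖W k N t ξ‖ ≤ C * (N : ℝ) ^ (1 - σ + ε)

open Polynomial in
theorem W_eq_poly (k N : ℕ) (hk : 2 ≤ k) (t ξ : ℝ) :
    ∃ P : Polynomial ℝ, P.natDegree ≤ k ∧ P.coeff k = t ∧
      W k N t ξ = ∑ n ∈ Finset.Icc (1 : ℤ) (N : ℤ), ee (P.eval (n : ℝ)) := by
  refine ⟨C t * X ^ k + C ξ * X, ?_, ?_, ?_⟩
  · refine (natDegree_add_le _ _).trans (max_le (natDegree_C_mul_X_pow_le _ _) ?_)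
    have := natDegree_C_mul_X_pow_le (R := ℝ) ξ 1
    rw [pow_one] at this
    omega
  · rw [coeff_add, coeff_C_mul, coeff_X_pow, coeff_C_mul, coeff_X]
    have : ¬ (1 = k) := by omega
    simp [this]
  · unfold W
    refine Finset.sum_bij (fun n _ => (n : ℤ)) ?_ ?_ ?_ ?_
    · intro n hn
      rw [Finset.mem_Icc] at hn ⊢
      constructor
      · exact_mod_cast hn.1
      · exact_mod_cast hn.2
    · intro a _ b _ h
      exact_mod_cast h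
    · intro b hb
      rw [Finset.mem_Icc] at hb
      refine ⟨b.toNat, ?_, ?_⟩
      · rw [Finset.mem_Icc]
        omega
      · omega
    · intro n _
      simp only [eval_add, eval_mul, eval_C, eval_pow, eval_X, Int.cast_natCast]

theorem wfar_of_blfar (k : ℕ) (hk : 2 ≤ k) (θ : ℝ) (h : BlFarStmt k θ) :
    WFarStmt k ((1 + θ) / ((k : ℝ) * ((k : ℝ) + 1))) := by
  intro ε hε
  obtain ⟨C, hC, h⟩ := h ε hε
  refine ⟨C, hC, ?_⟩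
  intro N t ξ hN hF
  obtain ⟨P, h1, h2, h3⟩ := W_eq_poly k N hk t ξ
  rw [h3]
  refine h N N P hN h1 ?_ le_rfl
  rw [h2]
  exact hF

/-- the number `q` is at most `2 U` -/
theorem q_le_of_near (k N q u : ℕ) (a b : ℤ) (t : ℝ) (hk : 2 ≤ k) (hq : 1 ≤ q) (hqN : q ≤ N)
    (hu : 1 ≤ u) (hg : Int.gcd a q = 1) (hb : Int.gcd b u = 1)
    (ht : |t - (a : ℝ) / (q : ℝ)| ≤ 1 / (q : ℝ) ^ 2)
    (hU : (u : ℝ) * (1 + (N : ℝ) ^ k * |t - (b : ℝ) / (u : ℝ)|) < (N : ℝ) / 2) :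
    (q : ℝ) ≤ 2 * ((u : ℝ) * (1 + (N : ℝ) ^ k * |t - (b : ℝ) / (u : ℝ)|)) := by
  have hq0 : (0 : ℝ) < (q : ℝ) := by exact_mod_cast hq
  have hu0 : (0 : ℝ) < (u : ℝ) := by exact_mod_cast hu
  have hN0 : (0 : ℝ) < (N : ℝ) := by exact_mod_cast (lt_of_lt_of_le hq hqN)
  have hN1 : (1 : ℝ) ≤ (N : ℝ) := by exact_mod_cast (le_trans hq hqN)
  have hqN' : (q : ℝ) ≤ (N : ℝ) := by exact_mod_cast hqN
  have habs : 0 ≤ |t - (b : ℝ) / (u : ℝ)| := abs_nonneg _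
  have hbase : (u : ℝ) ≤ (u : ℝ) * (1 + (N : ℝ) ^ k * |t - (b : ℝ) / (u : ℝ)|) := by
    have : 0 ≤ (N : ℝ) ^ k * |t - (b : ℝ) / (u : ℝ)| := by positivity
    nlinarith
  by_contra hcon
  push Not at hcon
  have h2u : 2 * (u : ℝ) < q := by linarith
  -- the two fractions are different
  have hne : a * (u : ℤ) - b * (q : ℤ) ≠ 0 := by
    intro h0
    have h1 : (q : ℤ) ∣ a * (u : ℤ) := ⟨b, by linarith⟩
    have hc : IsCoprime (q : ℤ) a := by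
      rw [Int.isCoprime_iff_gcd_eq_one, Int.gcd_comm]
      exact hg
    have h2 : (q : ℤ) ∣ (u : ℤ) := hc.dvd_of_dvd_mul_left h1
    have h3 : (q : ℤ) ≤ (u : ℤ) := Int.le_of_dvd (by exact_mod_cast hu) h2
    have h4 : (q : ℝ) ≤ (u : ℝ) := by exact_mod_cast h3
    linarith
  have h1 : (1 : ℝ) ≤ |(a : ℝ) * (u : ℝ) - (b : ℝ) * (q : ℝ)| := by
    have := Int.one_le_abs hne
    exact_mod_cast this
  have h2 : (a : ℝ) / (q : ℝ) - (b : ℝ) / (u : ℝ) =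
      ((a : ℝ) * (u : ℝ) - (b : ℝ) * (q : ℝ)) / ((q : ℝ) * (u : ℝ)) := by
    field_simp
  have h3 : 1 / ((q : ℝ) * (u : ℝ)) ≤ |(a : ℝ) / (q : ℝ) - (b : ℝ) / (u : ℝ)| := by
    rw [h2, abs_div, abs_of_pos (by positivity : (0 : ℝ) < (q : ℝ) * (u : ℝ))]
    gcongr
  have h4 : |(a : ℝ) / (q : ℝ) - (b : ℝ) / (u : ℝ)| ≤
      |t - (a : ℝ) / (q : ℝ)| + |t - (b : ℝ) / (u : ℝ)| := by
    have : (a : ℝ) / (q : ℝ) - (b : ℝ) / (u : ℝ) =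
        -(t - (a : ℝ) / (q : ℝ)) + (t - (b : ℝ) / (u : ℝ)) := by ring
    rw [this]
    refine (abs_add_le _ _).trans ?_
    rw [abs_neg]
  have h5 : 1 / ((q : ℝ) * (u : ℝ)) ≤ 1 / (q : ℝ) ^ 2 + |t - (b : ℝ) / (u : ℝ)| := by linarith
  have h6 : 1 ≤ (u : ℝ) / (q : ℝ) + (q : ℝ) * ((u : ℝ) * |t - (b : ℝ) / (u : ℝ)|) := by
    have := mul_le_mul_of_nonneg_left h5 (by positivity : (0 : ℝ) ≤ (q : ℝ) * (u : ℝ))
    have e1 : (q : ℝ) * (u : ℝ) * (1 / ((q : ℝ) * (u : ℝ))) = 1 := by field_simp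
    have e2 : (q : ℝ) * (u : ℝ) * (1 / (q : ℝ) ^ 2 + |t - (b : ℝ) / (u : ℝ)|) =
        (u : ℝ) / (q : ℝ) + (q : ℝ) * ((u : ℝ) * |t - (b : ℝ) / (u : ℝ)|) := by
      field_simp
    linarith
  have h7 : (u : ℝ) / (q : ℝ) < 1 / 2 := by
    rw [div_lt_iff₀ hq0]
    linarith
  have h8 : 1 / 2 < (q : ℝ) * ((u : ℝ) * |t - (b : ℝ) / (u : ℝ)|) := by linarith
  have h9 : (N : ℝ) ^ 2 * ((u : ℝ) * |t - (b : ℝ) / (u : ℝ)|) < (N : ℝ) / 2 := by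
    have h10 : (N : ℝ) ^ 2 ≤ (N : ℝ) ^ k := pow_le_pow_right₀ hN1 hk
    have h11 : (u : ℝ) * ((N : ℝ) ^ 2 * |t - (b : ℝ) / (u : ℝ)|) ≤
        (u : ℝ) * ((N : ℝ) ^ k * |t - (b : ℝ) / (u : ℝ)|) := by gcongr
    nlinarith
  have h10 : (q : ℝ) * ((u : ℝ) * |t - (b : ℝ) / (u : ℝ)|) ≤
      (N : ℝ) * ((u : ℝ) * |t - (b : ℝ) / (u : ℝ)|) := by gcongr
  have h11 : (N : ℝ) * (1 / 2) < (N : ℝ) * ((N : ℝ) * ((u : ℝ) * |t - (b : ℝ) / (u : ℝ)|)) := by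
    apply mul_lt_mul_of_pos_left _ hN0
    linarith
  nlinarith

/-- FFL: the full form -/
theorem ffl (k : ℕ) (hk : 2 ≤ k) (σ : ℝ) (maj : MajStmt k) (far : WFarStmt k σ) :
    FflStmt k σ := by
  intro ε hε
  obtain ⟨C₁, hC₁, maj⟩ := maj ε hε
  obtain ⟨C₂, hC₂, far⟩ := far ε hε
  refine ⟨2 * C₁ + C₂, by positivity, ?_⟩
  intro N q a t ξ hq hqN hg ht
  have hN1 : 1 ≤ N := le_trans hq hqN
  have hN0 : (0 : ℝ) < (N : ℝ) := by exact_mod_cast hN1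
  have hN1' : (1 : ℝ) ≤ (N : ℝ) := by exact_mod_cast hN1
  have hq0 : (0 : ℝ) < (q : ℝ) := by exact_mod_cast hq
  have hk0 : (0 : ℝ) < (k : ℝ) := by
    have : 0 < k := by omega
    exact_mod_cast this
  have hA : 0 ≤ (1 / (q : ℝ)) ^ (1 / (k : ℝ)) := by positivity
  have hB : 0 ≤ (1 / (N : ℝ)) ^ σ := by positivity
  have hNe : 0 < (N : ℝ) ^ (1 + ε) := by positivity
  by_cases hF : Far k N t
  · have h1 := far N t ξ hN1 hF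
    have h2 : (N : ℝ) ^ (1 - σ + ε) = (N : ℝ) ^ (1 + ε) * (1 / (N : ℝ)) ^ σ := by
      rw [one_div, Real.inv_rpow hN0.le, ← Real.rpow_neg hN0.le, ← Real.rpow_add hN0]
      congr 1
      ring
    rw [h2] at h1
    calc ‖W k N t ξ‖ ≤ C₂ * ((N : ℝ) ^ (1 + ε) * (1 / (N : ℝ)) ^ σ) := h1
      _ ≤ (2 * C₁ + C₂) * (N : ℝ) ^ (1 + ε) * ((1 / (q : ℝ)) ^ (1 / (k : ℝ)) +
          (1 / (N : ℝ)) ^ σ) := by
          have e1 : 0 ≤ C₁ * (N : ℝ) ^ (1 + ε) * ((1 / (q : ℝ)) ^ (1 / (k : ℝ)) +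
            (1 / (N : ℝ)) ^ σ) := by positivity
          have e2 : 0 ≤ C₂ * (N : ℝ) ^ (1 + ε) * (1 / (q : ℝ)) ^ (1 / (k : ℝ)) := by positivity
          nlinarith
  · unfold Far at hF
    push Not at hF
    obtain ⟨b, u, hu, hb, hU⟩ := hF
    have hu0 : (0 : ℝ) < (u : ℝ) := by exact_mod_cast hu
    have hqU := q_le_of_near k N q u a b t hk hq hqN hu hg hb ht hU
    obtain ⟨U, hUdef⟩ : ∃ U : ℝ, U = (u : ℝ) * (1 + (N : ℝ) ^ k * |t - (b : ℝ) / (u : ℝ)|) :=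
      ⟨_, rfl⟩
    have h1 := maj N u b t ξ hN1 hu hb (by linarith)
    rw [← hUdef] at h1 hqU hU
    have hU0 : 0 < U := by linarith
    have h2 : U ^ (-(1 / (k : ℝ))) ≤ 2 * (1 / (q : ℝ)) ^ (1 / (k : ℝ)) := by
      have e1 : (q : ℝ) / 2 ≤ U := by linarith
      have e2 : U ^ (-(1 / (k : ℝ))) ≤ ((q : ℝ) / 2) ^ (-(1 / (k : ℝ))) :=
        Real.rpow_le_rpow_of_nonpos (by positivity) e1 (by
          have : 0 < 1 / (k : ℝ) := by positivity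
          linarith)
      have e3 : ((q : ℝ) / 2) ^ (-(1 / (k : ℝ))) = 2 ^ (1 / (k : ℝ)) * (1 / (q : ℝ)) ^ (1 / (k : ℝ)) := by
        rw [Real.rpow_neg (by positivity), ← Real.inv_rpow (by positivity), inv_div,
          div_eq_mul_one_div, Real.mul_rpow (by norm_num) (by positivity)]
      have e4 : (2 : ℝ) ^ (1 / (k : ℝ)) ≤ 2 := by
        have : (2 : ℝ) ^ (1 / (k : ℝ)) ≤ (2 : ℝ) ^ (1 : ℝ) := by
          apply Real.rpow_le_rpow_of_exponent_le (by norm_num)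
          rw [div_le_one hk0]
          have : 1 ≤ k := by omega
          exact_mod_cast this
        rwa [Real.rpow_one] at this
      calc U ^ (-(1 / (k : ℝ))) ≤ ((q : ℝ) / 2) ^ (-(1 / (k : ℝ))) := e2
        _ = 2 ^ (1 / (k : ℝ)) * (1 / (q : ℝ)) ^ (1 / (k : ℝ)) := e3
        _ ≤ 2 * (1 / (q : ℝ)) ^ (1 / (k : ℝ)) := by gcongr
    calc ‖W k N t ξ‖ ≤ C₁ * (N : ℝ) ^ (1 + ε) * U ^ (-(1 / (k : ℝ))) := h1
      _ ≤ C₁ * (N : ℝ) ^ (1 + ε) * (2 * (1 / (q : ℝ)) ^ (1 / (k : ℝ))) := by gcongr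
      _ ≤ (2 * C₁ + C₂) * (N : ℝ) ^ (1 + ε) * ((1 / (q : ℝ)) ^ (1 / (k : ℝ)) +
          (1 / (N : ℝ)) ^ σ) := by
          have e1 : 0 ≤ C₁ * (N : ℝ) ^ (1 + ε) * (1 / (N : ℝ)) ^ σ := by positivity
          have e2 : 0 ≤ C₂ * (N : ℝ) ^ (1 + ε) * ((1 / (q : ℝ)) ^ (1 / (k : ℝ)) +
            (1 / (N : ℝ)) ^ σ) := by positivity
          nlinarith

/-- the number `1 / U` is at most `2 (1 / q + q / N ^ k)` -/
theorem inv_le_of_near (k N q u : ℕ) (a b : ℤ) (t : ℝ) (hN : 1 ≤ N) (hq : 1 ≤ q)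
    (hu : 1 ≤ u) (hg : Int.gcd a q = 1)
    (ht : |t - (a : ℝ) / (q : ℝ)| ≤ 1 / (q : ℝ) ^ 2) :
    1 / ((u : ℝ) * (1 + (N : ℝ) ^ k * |t - (b : ℝ) / (u : ℝ)|)) ≤
      2 * (1 / (q : ℝ) + (q : ℝ) / (N : ℝ) ^ k) := by
  have hq0 : (0 : ℝ) < (q : ℝ) := by exact_mod_cast hq
  have hu0 : (0 : ℝ) < (u : ℝ) := by exact_mod_cast hu
  have hN0 : (0 : ℝ) < (N : ℝ) := by exact_mod_cast hN
  have habs : 0 ≤ |t - (b : ℝ) / (u : ℝ)| := abs_nonneg _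
  have hNk : (0 : ℝ) < (N : ℝ) ^ k := by positivity
  have hbase : (u : ℝ) ≤ (u : ℝ) * (1 + (N : ℝ) ^ k * |t - (b : ℝ) / (u : ℝ)|) := by
    have : 0 ≤ (N : ℝ) ^ k * |t - (b : ℝ) / (u : ℝ)| := by positivity
    nlinarith
  have hU0 : 0 < (u : ℝ) * (1 + (N : ℝ) ^ k * |t - (b : ℝ) / (u : ℝ)|) := by linarith
  rcases le_or_gt (q : ℝ) (2 * (u : ℝ)) with h2u | h2u
  · have h1 : 1 / ((u : ℝ) * (1 + (N : ℝ) ^ k * |t - (b : ℝ) / (u : ℝ)|)) ≤ 1 / ((q : ℝ) / 2) := by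
      apply one_div_le_one_div_of_le (by positivity)
      linarith
    have h2 : 1 / ((q : ℝ) / 2) = 2 * (1 / (q : ℝ)) := by field_simp
    have h3 : 0 ≤ (q : ℝ) / (N : ℝ) ^ k := by positivity
    linarith
  · have hne : a * (u : ℤ) - b * (q : ℤ) ≠ 0 := by
      intro h0
      have h1 : (q : ℤ) ∣ a * (u : ℤ) := ⟨b, by linarith⟩
      have hc : IsCoprime (q : ℤ) a := by
        rw [Int.isCoprime_iff_gcd_eq_one, Int.gcd_comm]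
        exact hg
      have h2 : (q : ℤ) ∣ (u : ℤ) := hc.dvd_of_dvd_mul_left h1
      have h3 : (q : ℤ) ≤ (u : ℤ) := Int.le_of_dvd (by exact_mod_cast hu) h2
      have h4 : (q : ℝ) ≤ (u : ℝ) := by exact_mod_cast h3
      linarith
    have h1 : (1 : ℝ) ≤ |(a : ℝ) * (u : ℝ) - (b : ℝ) * (q : ℝ)| := by
      have := Int.one_le_abs hne
      exact_mod_cast this
    have h2 : (a : ℝ) / (q : ℝ) - (b : ℝ) / (u : ℝ) =
        ((a : ℝ) * (u : ℝ) - (b : ℝ) * (q : ℝ)) / ((q : ℝ) * (u : ℝ)) := by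
      field_simp
    have h3 : 1 / ((q : ℝ) * (u : ℝ)) ≤ |(a : ℝ) / (q : ℝ) - (b : ℝ) / (u : ℝ)| := by
      rw [h2, abs_div, abs_of_pos (by positivity : (0 : ℝ) < (q : ℝ) * (u : ℝ))]
      gcongr
    have h4 : |(a : ℝ) / (q : ℝ) - (b : ℝ) / (u : ℝ)| ≤
        |t - (a : ℝ) / (q : ℝ)| + |t - (b : ℝ) / (u : ℝ)| := by
      have : (a : ℝ) / (q : ℝ) - (b : ℝ) / (u : ℝ) =
          -(t - (a : ℝ) / (q : ℝ)) + (t - (b : ℝ) / (u : ℝ)) := by ring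
      rw [this]
      refine (abs_add_le _ _).trans ?_
      rw [abs_neg]
    have h5 : 1 / ((q : ℝ) * (u : ℝ)) ≤ 1 / (q : ℝ) ^ 2 + |t - (b : ℝ) / (u : ℝ)| := by linarith
    have h6 : 1 ≤ (u : ℝ) / (q : ℝ) + (q : ℝ) * ((u : ℝ) * |t - (b : ℝ) / (u : ℝ)|) := by
      have := mul_le_mul_of_nonneg_left h5 (by positivity : (0 : ℝ) ≤ (q : ℝ) * (u : ℝ))
      have e1 : (q : ℝ) * (u : ℝ) * (1 / ((q : ℝ) * (u : ℝ))) = 1 := by field_simp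
      have e2 : (q : ℝ) * (u : ℝ) * (1 / (q : ℝ) ^ 2 + |t - (b : ℝ) / (u : ℝ)|) =
          (u : ℝ) / (q : ℝ) + (q : ℝ) * ((u : ℝ) * |t - (b : ℝ) / (u : ℝ)|) := by
        field_simp
      linarith
    have h7 : (u : ℝ) / (q : ℝ) < 1 / 2 := by
      rw [div_lt_iff₀ hq0]
      linarith
    have h8 : 1 / 2 < (q : ℝ) * ((u : ℝ) * |t - (b : ℝ) / (u : ℝ)|) := by linarith
    have h9 : (N : ℝ) ^ k / (2 * (q : ℝ)) ≤
        (u : ℝ) * (1 + (N : ℝ) ^ k * |t - (b : ℝ) / (u : ℝ)|) := by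
      rw [div_le_iff₀ (by positivity)]
      have e1 : (N : ℝ) ^ k * (1 / 2) ≤
          (N : ℝ) ^ k * ((q : ℝ) * ((u : ℝ) * |t - (b : ℝ) / (u : ℝ)|)) := by gcongr
      have e2 : 0 ≤ (u : ℝ) * (2 * (q : ℝ)) := by positivity
      nlinarith
    have h10 : 1 / ((u : ℝ) * (1 + (N : ℝ) ^ k * |t - (b : ℝ) / (u : ℝ)|)) ≤
        1 / ((N : ℝ) ^ k / (2 * (q : ℝ))) :=
      one_div_le_one_div_of_le (by positivity) h9
    have h11 : 1 / ((N : ℝ) ^ k / (2 * (q : ℝ))) = 2 * ((q : ℝ) / (N : ℝ) ^ k) := by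
      field_simp
    have h12 : 0 ≤ 1 / (q : ℝ) := by positivity
    linarith

/-- FFA: the full form, all `q` -/
def FfaStmt (k : ℕ) (σ : ℝ) : Prop :=
  ∀ ε : ℝ, 0 < ε → ∃ C : ℝ, 0 < C ∧ ∀ (N q : ℕ) (a : ℤ) (t ξ : ℝ), 1 ≤ N → 1 ≤ q →
    Int.gcd a q = 1 → |t - (a : ℝ) / (q : ℝ)| ≤ 1 / (q : ℝ) ^ 2 →
    ‖W k N t ξ‖ ≤ C * (N : ℝ) ^ (1 + ε) *
      ((1 / (q : ℝ) + (q : ℝ) / (N : ℝ) ^ k) ^ (1 / (k : ℝ)) + (1 / (N : ℝ)) ^ σ)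

/-- FFA: the full form, all `q` -/
theorem ffa (k : ℕ) (hk : 1 ≤ k) (σ : ℝ) (maj : MajStmt k) (far : WFarStmt k σ) :
    FfaStmt k σ := by
  intro ε hε
  obtain ⟨C₁, hC₁, maj⟩ := maj ε hε
  obtain ⟨C₂, hC₂, far⟩ := far ε hε
  refine ⟨2 * C₁ + C₂, by positivity, ?_⟩
  intro N q a t ξ hN1 hq hg ht
  have hN0 : (0 : ℝ) < (N : ℝ) := by exact_mod_cast hN1
  have hq0 : (0 : ℝ) < (q : ℝ) := by exact_mod_cast hq
  have hk0 : (0 : ℝ) < (k : ℝ) := by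
    have : 0 < k := by omega
    exact_mod_cast this
  obtain ⟨Q, hQdef⟩ : ∃ Q : ℝ, Q = 1 / (q : ℝ) + (q : ℝ) / (N : ℝ) ^ k := ⟨_, rfl⟩
  have hQ0 : 0 < Q := by rw [hQdef]; positivity
  have hA : 0 ≤ Q ^ (1 / (k : ℝ)) := by positivity
  have hB : 0 ≤ (1 / (N : ℝ)) ^ σ := by positivity
  have hNe : 0 < (N : ℝ) ^ (1 + ε) := by positivity
  rw [← hQdef]
  by_cases hF : Far k N t
  · have h1 := far N t ξ hN1 hF
    have h2 : (N : ℝ) ^ (1 - σ + ε) = (N : ℝ) ^ (1 + ε) * (1 / (N : ℝ)) ^ σ := by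
      rw [one_div, Real.inv_rpow hN0.le, ← Real.rpow_neg hN0.le, ← Real.rpow_add hN0]
      congr 1
      ring
    rw [h2] at h1
    calc ‖W k N t ξ‖ ≤ C₂ * ((N : ℝ) ^ (1 + ε) * (1 / (N : ℝ)) ^ σ) := h1
      _ ≤ (2 * C₁ + C₂) * (N : ℝ) ^ (1 + ε) * (Q ^ (1 / (k : ℝ)) + (1 / (N : ℝ)) ^ σ) := by
          have e1 : 0 ≤ C₁ * (N : ℝ) ^ (1 + ε) * (Q ^ (1 / (k : ℝ)) + (1 / (N : ℝ)) ^ σ) := by
            positivity
          have e2 : 0 ≤ C₂ * (N : ℝ) ^ (1 + ε) * Q ^ (1 / (k : ℝ)) := by positivity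
          nlinarith
  · unfold Far at hF
    push Not at hF
    obtain ⟨b, u, hu, hb, hU⟩ := hF
    have hinv := inv_le_of_near k N q u a b t hN1 hq hu hg ht
    rw [← hQdef] at hinv
    obtain ⟨U, hUdef⟩ : ∃ U : ℝ, U = (u : ℝ) * (1 + (N : ℝ) ^ k * |t - (b : ℝ) / (u : ℝ)|) :=
      ⟨_, rfl⟩
    have hu0 : (0 : ℝ) < (u : ℝ) := by exact_mod_cast hu
    have h1 := maj N u b t ξ hN1 hu hb (by linarith)
    have hU0 : 0 < U := by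
      rw [hUdef]
      have : 0 ≤ (N : ℝ) ^ k * |t - (b : ℝ) / (u : ℝ)| := by positivity
      positivity
    rw [← hUdef] at h1 hinv
    have h2 : U ^ (-(1 / (k : ℝ))) ≤ 2 * Q ^ (1 / (k : ℝ)) := by
      have e2 : U ^ (-(1 / (k : ℝ))) = (1 / U) ^ (1 / (k : ℝ)) := by
        rw [Real.rpow_neg hU0.le, ← Real.inv_rpow hU0.le, one_div U]
      have e3 : (1 / U) ^ (1 / (k : ℝ)) ≤ (2 * Q) ^ (1 / (k : ℝ)) :=
        Real.rpow_le_rpow (by positivity) hinv (by positivity)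
      have e4 : (2 : ℝ) ^ (1 / (k : ℝ)) ≤ 2 := by
        have : (2 : ℝ) ^ (1 / (k : ℝ)) ≤ (2 : ℝ) ^ (1 : ℝ) := by
          apply Real.rpow_le_rpow_of_exponent_le (by norm_num)
          rw [div_le_one hk0]
          exact_mod_cast hk
        rwa [Real.rpow_one] at this
      rw [Real.mul_rpow (by norm_num) hQ0.le] at e3
      calc U ^ (-(1 / (k : ℝ))) = (1 / U) ^ (1 / (k : ℝ)) := e2
        _ ≤ 2 ^ (1 / (k : ℝ)) * Q ^ (1 / (k : ℝ)) := e3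
        _ ≤ 2 * Q ^ (1 / (k : ℝ)) := by gcongr
    calc ‖W k N t ξ‖ ≤ C₁ * (N : ℝ) ^ (1 + ε) * U ^ (-(1 / (k : ℝ))) := h1
      _ ≤ C₁ * (N : ℝ) ^ (1 + ε) * (2 * Q ^ (1 / (k : ℝ))) := by gcongr
      _ ≤ (2 * C₁ + C₂) * (N : ℝ) ^ (1 + ε) * (Q ^ (1 / (k : ℝ)) + (1 / (N : ℝ)) ^ σ) := by
          have e1 : 0 ≤ C₁ * (N : ℝ) ^ (1 + ε) * (1 / (N : ℝ)) ^ σ := by positivity
          have e2 : 0 ≤ C₂ * (N : ℝ) ^ (1 + ε) * (Q ^ (1 / (k : ℝ)) + (1 / (N : ℝ)) ^ σ) := by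
            positivity
          nlinarith

end Pool.Agent.VM
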