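import Mathlib
import Pool.Agent.VM.StmtsH
import Pool.Agent.Helper20_HUA.Hmt
import Pool.Agent.Helper20_HUA.Mor
import Pool.Agent.Helper29_HUA.NWT
import Pool.Agent.Helper37_HUA.Stp
import Pool.Agent.Helper94_HUA.Ppb
import Pool.Agent.Helper94_HUA.Vfa
import Pool.Agent.Helper94_HUA.Maj
import Pool.Agent.Helper17_HUA.Kul
import Pool.Agent.Helper17_HUA.Ppc
import Pool.Agent.Helper24_HUA.Ppw
import Pool.Agent.Helper2_HUA.Ome
import Pool.Agent.Helper78_HUA.Vbo
import Pool.Agent.Helper14_HUA.Cpl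
import Pool.Agent.Helper85_HUA.Hua
import Pool.Agent.Helper85_HUA.Rtp
import Pool.Agent.Helper85_HUA.Spl

/-!
# Weyl sums near rational numbers: assembly
-/

set_option autoImplicit false

namespace Pool.Agent.VM

theorem maj_of (rtp : RtpStmt) (spl : SplStmt)
    (hua : ∀ k : ℕ, 1 ≤ k → HmtStmt → PpwStmt k → OmeStmt → HuaStmt k)
    (k : ℕ) (hk : 3 ≤ k) : MajStmt k := by
  have ppb : PpbStmt k := H94.ppb k hk H37.stp rtp
  have ppc : PpcStmt k := H17.ppc k hk H37.stp
  have mor : MorStmt k := H20.mor k hk H29.nwt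
  have ppw : PpwStmt k := H24.ppw k hk mor ppb ppc
  have hu : HuaStmt k := hua k (by omega) H20.hmt ppw H2.ome
  exact H94.maj k (by omega) hu (H78.vbo k (by omega) H17.kul) (H94.vfa k (by omega) H17.kul)
    H14.cpl spl

/-- the bound near rational numbers, every degree `k ≥ 3` -/
theorem maj (k : ℕ) (hk : 3 ≤ k) : MajStmt k :=
  maj_of H85.rtp H85.spl (fun k hk hmt ppw ome => H85.hua k hk hmt ppw ome) k hk

end Pool.Agent.VM
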