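import Mathlib
import Pool.Agent.VM.Defs
import Pool.Agent.VM.Stmts
import Pool.Agent.Helper14_VM.Av
import Pool.Agent.Helper53_VM.HO1
import Pool.Agent.Helper53_VM.MNK
import Pool.Agent.Helper4_VM.Gpr
import Pool.Agent.Helper4_VM.Lm0
import Pool.Agent.Helper35_VM.Tra
import Pool.Agent.Helper64_VM.Sqt
import Pool.Agent.Helper64_VM.Lmd
import Pool.Agent.Helper91_VM.Res
import Pool.Agent.Helper91_VM.Lma
import Pool.Agent.Helper20_VM.Bij
import Pool.Agent.Helper56_VM.Ldc
import Pool.Agent.Helper56_VM.Fin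
import Pool.Agent.Helper55_VM.LMB
import Pool.Agent.Helper36_VM.Lmc
import Pool.Agent.Helper61_VM.Grw
import Pool.Agent.Helper61_VM.Grd
import Pool.Agent.Helper61_VM.Vmv
import Pool.Agent.Helper55_VM.LD1
import Pool.Agent.Helper39_VM.Sqn
import Pool.Agent.Helper30_VM.Bas

/-!
# Vinogradov's mean value theorem: assembly
-/

set_option autoImplicit false

namespace Pool.Agent.VM

theorem decE_of (bas : BasStmt) (sqn : SqnStmt) (trv : TrvStmt)
    (ld1 : ∀ p k l : ℕ, p.Prime → k < p → 1 ≤ l → l ≤ k → Ld1Stmt p k l)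
    (p : ℕ) (hp : p.Prime) :
    ∀ k : ℕ, 1 ≤ k → k < p → DecE p k := by
  intro k
  induction k using Nat.strong_induction_on with
  | _ k ih =>
    intro hk hkp
    rcases Nat.lt_or_ge k 2 with h1 | h2
    · obtain rfl : k = 1 := by omega
      exact bas p hp
    · have tra : TraStmt := H35.tra H14.avb
      have sqt : SqtStmt := H64.sqt tra
      have lgl : LglStmt := H4.lgl H14.avt H53.mnk
      have ldm : LdmStmt := H4.ldm lgl H4.gpr
      have rs : ResStmt p k := H91.res p k hp hk tra lgl H4.gpr sqt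
      refine H56.fin p k hp h2 hkp H61.grw trv ?_ ?_ ?_ ?_ ?_
      · intro l hl hlk
        refine H91.lma p k l hp hl hlk ?_ tra sqt sqn lgl H4.gpr
        exact H56.ldc p k l hp hkp hl hlk (ih l hlk hl (by omega))
          (ld1 p k l hp hkp hl hlk.le) ldm trv sqn
      · intro l hl hlk
        exact H55.lmb p k l hl hlk H53.ho2
      · exact H4.lm0 p k hp hk rs H53.ho1
      · exact H36.lmc p k hp h2 rs sqn
      · exact H64.lmd p k hp h2 sqn

theorem vmvt_of (bas : BasStmt) (sqn : SqnStmt) (trv : TrvStmt)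
    (ld1 : ∀ p k l : ℕ, p.Prime → k < p → 1 ≤ l → l ≤ k → Ld1Stmt p k l)
    (k : ℕ) (hk : 1 ≤ k) : VmvtStmt k := by
  obtain ⟨p, hkp, hp⟩ := Nat.exists_infinite_primes (k + 1)
  exact H61.vmv H61.grd p k hp hk (decE_of bas sqn trv ld1 p hp k hk (by omega))

/-- decoupling for the moment curve of degree `k < p` -/
theorem decE (p : ℕ) (hp : p.Prime) (k : ℕ) (hk : 1 ≤ k) (hkp : k < p) : DecE p k :=
  decE_of H30.bas H39.sqn (H39.trv H53.mnk)
    (fun p k l hp hk hl hlk => H55.ld1 p k l hp hk hl hlk H14.avb (H4.lgl H14.avt H53.mnk) H4.gpr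
      H20.bij) p hp k hk hkp

/-- **Vinogradov's mean value theorem** at the critical exponent, every degree -/
theorem vmvt (k : ℕ) (hk : 1 ≤ k) : VmvtStmt k :=
  vmvt_of H30.bas H39.sqn (H39.trv H53.mnk)
    (fun p k l hp hk hl hlk => H55.ld1 p k l hp hk hl hlk H14.avb (H4.lgl H14.avt H53.mnk) H4.gpr
      H20.bij) k hk

end Pool.Agent.VM
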