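import Mathlib
import Pool.Agent.VM.StmtsW
import Pool.Agent.VM.Vmvt
import Pool.Agent.Helper36_VM.Avg
import Pool.Agent.Helper17_VM.Abl
import Pool.Agent.Helper17_VM.Jeq
import Pool.Agent.Helper17_VM.Fnl
import Pool.Agent.Helper76_VM.Lsa
import Pool.Agent.Helper4_VM.Cmp
import Pool.Agent.Helper75_VM.Num
import Pool.Agent.Helper75_VM.Blk
import Pool.Agent.Helper39_VM.Prm
import Pool.Agent.Helper21_VM.Dir
import Pool.Agent.Helper29_VM.Off
import Pool.Agent.Helper83_VM.Cnt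
import Pool.Agent.Helper24_VM.Ene
import Pool.Agent.Helper71_VM.En1
import Pool.Agent.Helper65_VM.Blc
import Pool.Agent.Helper65_VM.Tay
import Pool.Agent.Helper30_VM.Hmu
import Pool.Agent.Helper39_VM.Rtu
import Pool.Agent.Helper47_VM.En2

/-!
# Weyl sums with the exponent `3 / (2 k (k + 1))`: assembly
-/

set_option autoImplicit false

namespace Pool.Agent.VM

theorem fnl_of (hmu : HmuStmt) (rtu : RtuStmt)
    (en2 : ∀ k c₀ : ℕ, 3 ≤ k → 1 ≤ c₀ → NumP k c₀ → En2Stmt k c₀)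
    (k : ℕ) (hk : 3 ≤ k) (vm : VmvtStmt k) : FnlStmt k := by
  have lsa : LsaStmt k := H76.lsa k (by omega) vm H17.abl H4.cmp hmu H17.jeq H61.grd
  have ene : EneStmt k := H24.ene k hk H75.num
    (fun c₀ hc hn => H71.en1 k c₀ hk hc hn H39.prm rtu H21.dir H21.dvd H29.off H29.pdv)
    (fun c₀ hc hn => en2 k c₀ hk hc hn) H21.dir H21.dvd H75.blk
  exact H17.fnl k hk (H65.blc k hk lsa ene H36.avg H65.tay)

/-- the large sieve inequality from the mean value theorem, every degree -/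
theorem lsa (k : ℕ) (hk : 1 ≤ k) : LsaStmt k :=
  H76.lsa k hk (vmvt k hk) H17.abl H4.cmp H30.hmu H17.jeq H61.grd

/-- Weyl sums with the exponent `3 / (2 k (k + 1))` -/
theorem fnl (k : ℕ) (hk : 3 ≤ k) : FnlStmt k :=
  fnl_of H30.hmu H39.rtu
    (fun k c₀ hk hc hn => H47.en2 k c₀ hk hc hn H83.cnt H29.pdv) k hk (vmvt k (by omega))

end Pool.Agent.VM
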