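import Mathlib
import Pool.Agent.VM.Major
import Pool.Agent.VM.Ffl
import Pool.Agent.VM.Wfin
import Pool.Agent.Helper7_VM.Final
import Pool.Agent.Helper56_VP.BlP

/-!
# Weyl sums, the full form: assembly
-/

set_option autoImplicit false

namespace Pool.Agent.VM

/-- the full form for every degree `k ≥ 3`, first version -/
theorem main₀ (k : ℕ) (hk : 3 ≤ k) :
    FflStmt k ((1 + ((k : ℝ) - 2) / ((k : ℝ) + 1)) / ((k : ℝ) * ((k : ℝ) + 1))) :=
  ffl k (by omega) _ (maj k hk) (wfar_of_blfar k (by omega) _ (H7.blfar_fin k hk))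

/-- the full form for every degree `k ≥ 4`, all `q` -/
theorem main₁ (k : ℕ) (hk : 4 ≤ k) :
    FfaStmt k (2 * ((k : ℝ) - 1) / ((k : ℝ) ^ 2 * ((k : ℝ) + 1))) := by
  have hk0 : (0 : ℝ) < (k : ℝ) := by
    have : 0 < k := by omega
    exact_mod_cast this
  have h3 : (1 + ((k : ℝ) - 2) / (k : ℝ)) / ((k : ℝ) * ((k : ℝ) + 1)) =
      2 * ((k : ℝ) - 1) / ((k : ℝ) ^ 2 * ((k : ℝ) + 1)) := by
    field_simp
    ring
  have h := H56P.blp k hk
  refine ffa k (by omega) _ (maj k (by omega)) ?_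
  intro ε hε
  obtain ⟨C, hC, h⟩ := h ε hε
  refine ⟨C, hC, ?_⟩
  intro N t ξ hN hF
  rw [← h3]
  exact h N t ξ hN hF

end Pool.Agent.VM
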